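import Pool.Agent.CmpDef.BU

/-!
# The classical Borsuk–Ulam theorem from the cochain version

`odd_zero`: a continuous odd map from `V ∖ 0` to `W`, where `V`, `W` are finite dimensional real
normed spaces with `dim W < dim V`, has a zero.
-/

open Set Filter Topology Pool.Agent.CmpDef

namespace Pool.Agent.H60EQ

theorem lcob_zero {T : Type*} (l : List T) : lcob (fun _ => (0 : ZMod 2)) l = 0 := by
  induction l with
  | nil => rw [bu_lcob_nil]
  | cons x l ih => rw [bu_lcob_cons, ih, add_zero]

theorem cupList_eq_zero {T : Type*} (ss : List (T → ZMod 2)) (l : List T)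
    (hl : l.length = ss.length + 1)
    (h : ∃ s ∈ ss, ∀ x ∈ l, ∀ y ∈ l, s x = s y) : cupList ss l = 0 := by
  induction ss generalizing l with
  | nil => simp at h
  | cons s ss ih =>
    match l, hl with
    | x :: y :: l, hl =>
      rw [cupList]
      obtain ⟨t, ht, hc⟩ := h
      rcases List.mem_cons.1 ht with rfl | ht
      · rw [hc x (by simp) y (by simp), CharTwo.add_self_eq_zero, zero_mul]
      · rw [ih (y :: l) (by simpa using hl)
          ⟨t, ht, fun a ha b hb => hc a (List.mem_cons_of_mem _ ha) b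
            (List.mem_cons_of_mem _ hb)⟩, mul_zero]

/-- the tie-break: the first nonzero coordinate of `x` is positive -/
def lead {N : ℕ} (x : Fin N → ℝ) : Prop :=
  ∃ i, 0 < x i ∧ ∀ k, k < i → x k = 0

theorem lead_neg {N : ℕ} {x : Fin N → ℝ} (hx : x ≠ 0) : lead (-x) ↔ ¬ lead x := by
  classical
  have hex : ∃ i, x i ≠ 0 := by
    by_contra hcon
    push Not at hcon
    exact hx (funext hcon)
  have hne : (Finset.univ.filter fun i => x i ≠ 0).Nonempty := by
    obtain ⟨i, hi⟩ := hex
    exact ⟨i, by simpa using hi⟩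
  set m := (Finset.univ.filter fun i => x i ≠ 0).min' hne with hm
  have hm0 : x m ≠ 0 := by
    have := Finset.min'_mem _ hne
    rw [← hm] at this
    simpa using this
  have hmin : ∀ k, k < m → x k = 0 := by
    intro k hk
    by_contra hcon
    have : m ≤ k := Finset.min'_le _ _ (by simpa using hcon)
    exact absurd hk (not_lt.2 this)
  have key : ∀ y : Fin N → ℝ, y m ≠ 0 → (∀ k, k < m → y k = 0) → (lead y ↔ 0 < y m) := by
    intro y hy0 hy
    constructor
    · rintro ⟨i, hi, hik⟩
      rcases lt_trichotomy i m with h | h | h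
      · rw [hy i h] at hi
        exact absurd hi (lt_irrefl _)
      · rwa [← h]
      · exact absurd (hik m h) hy0
    · intro h
      exact ⟨m, h, hy⟩
  rw [key x hm0 hmin, key (-x) (by simpa using hm0) (fun k hk => by simpa using hmin k hk)]
  simp only [Pi.neg_apply, Left.neg_pos_iff, not_lt]
  constructor
  · exact le_of_lt
  · intro h
    exact lt_of_le_of_ne h hm0

open Classical in
/-- the sign function with the odd tie-break -/
noncomputable def sgn {N : ℕ} (g : (Fin N → ℝ) → ℝ) (x : Fin N → ℝ) : ZMod 2 :=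
  if 0 < g x ∨ (g x = 0 ∧ lead x) then 1 else 0

theorem sgn_neg {N : ℕ} (g : (Fin N → ℝ) → ℝ) (x : Fin N → ℝ) (hx : x ≠ 0)
    (hg : g (-x) = - g x) : sgn g (-x) = sgn g x + 1 := by
  unfold sgn
  rw [hg, lead_neg hx]
  rcases lt_trichotomy (g x) 0 with h | h | h
  · have h1 : (0 < - g x ∨ (- g x = 0 ∧ ¬ lead x)) := Or.inl (by linarith)
    have h2 : ¬ (0 < g x ∨ (g x = 0 ∧ lead x)) := by
      rintro (h' | ⟨h', -⟩) <;> linarith
    rw [if_pos h1, if_neg h2, zero_add]
  · by_cases hl : lead x
    · have h1 : ¬ (0 < - g x ∨ (- g x = 0 ∧ ¬ lead x)) := by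
        rintro (h' | ⟨-, h'⟩)
        · linarith
        · exact h' hl
      have h2 : (0 < g x ∨ (g x = 0 ∧ lead x)) := Or.inr ⟨h, hl⟩
      rw [if_neg h1, if_pos h2]
      decide
    · have h1 : (0 < - g x ∨ (- g x = 0 ∧ ¬ lead x)) := Or.inr ⟨by linarith, hl⟩
      have h2 : ¬ (0 < g x ∨ (g x = 0 ∧ lead x)) := by
        rintro (h' | ⟨-, h'⟩)
        · linarith
        · exact hl h'
      rw [if_pos h1, if_neg h2, zero_add]
  · have h1 : ¬ (0 < - g x ∨ (- g x = 0 ∧ ¬ lead x)) := by
      rintro (h' | ⟨h', -⟩) <;> linarith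
    have h2 : (0 < g x ∨ (g x = 0 ∧ lead x)) := Or.inl h
    rw [if_neg h1, if_pos h2]
    decide

theorem sgn_pos {N : ℕ} (g : (Fin N → ℝ) → ℝ) (x : Fin N → ℝ) (hx : 0 < g x) :
    sgn g x = 1 := by
  unfold sgn
  exact if_pos (Or.inl hx)

theorem sgn_of_neg {N : ℕ} (g : (Fin N → ℝ) → ℝ) (x : Fin N → ℝ) (hx : g x < 0) :
    sgn g x = 0 := by
  unfold sgn
  refine if_neg ?_
  rintro (h' | ⟨h', -⟩) <;> linarith

/-- Borsuk–Ulam for the sup-norm sphere. -/
theorem borsukUlam_sphere (j : ℕ) (g : (Fin (j + 1) → ℝ) → (Fin j → ℝ))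
    (hg : ContinuousOn g (Metric.sphere 0 1))
    (hodd : ∀ x ∈ Metric.sphere (0 : Fin (j + 1) → ℝ) 1, g (-x) = - g x) :
    ∃ x ∈ Metric.sphere (0 : Fin (j + 1) → ℝ) 1, g x = 0 := by
  by_contra hcon
  push Not at hcon
  have hS : ∀ x, x ∈ Sph (j + 1) j ↔ x ∈ Metric.sphere (0 : Fin (j + 1) → ℝ) 1 := by
    intro x
    rw [mem_sphere_zero_iff_norm]
    constructor
    · exact fun h => h.1
    · intro h
      refine ⟨h, fun i hi => ?_⟩
      have := i.isLt
      omega
  have hcpt : IsCompact (Metric.sphere (0 : Fin (j + 1) → ℝ) 1) := isCompact_sphere _ _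
  have hne : (Metric.sphere (0 : Fin (j + 1) → ℝ) 1).Nonempty :=
    ⟨fun _ => 1, by
      rw [mem_sphere_zero_iff_norm, pi_norm_const]
      simp⟩
  obtain ⟨x0, hx0, hmin⟩ := hcpt.exists_isMinOn hne hg.norm
  set ε := ‖g x0‖ with hε
  have hε0 : 0 < ε := norm_pos_iff.2 (hcon x0 hx0)
  have hεle : ∀ x ∈ Metric.sphere (0 : Fin (j + 1) → ℝ) 1, ε ≤ ‖g x‖ := fun x hx => hmin hx
  have huc := hcpt.uniformContinuousOn_of_continuous hg
  rw [Metric.uniformContinuousOn_iff] at huc
  obtain ⟨δ, hδ, hδ'⟩ := huc ε hε0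
  set ss : List ((Fin (j + 1) → ℝ) → ZMod 2) :=
    (List.finRange j).map (fun i => sgn (fun x => g x i)) with hss
  have hlen : ss.length = j := by
    rw [hss, List.length_map, List.length_finRange]
  refine borsukUlam_lists (j + 1) j (Nat.lt_succ_self j) ss hlen ?_ (fun _ => 0) rfl
    (fun _ _ => rfl) δ hδ ?_
  · intro s hs x hx
    rw [hss, List.mem_map] at hs
    obtain ⟨i, -, rfl⟩ := hs
    have hx' := (hS x).1 hx
    apply sgn_neg
    · rintro rfl
      rw [mem_sphere_zero_iff_norm] at hx'
      simp at hx'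
    · rw [hodd x hx']
      rfl
  · intro l hl hsm
    rw [lcob_zero]
    symm
    apply cupList_eq_zero
    · rw [hl, hlen]
    · obtain ⟨p, hp⟩ : ∃ p, p ∈ l := by
        match l, hl with
        | x :: l, _ => exact ⟨x, by simp⟩
      have hpS := (hS p).1 (hsm.1 p hp)
      -- a coordinate where `|g_i p| ≥ ε`
      obtain ⟨i, hi⟩ : ∃ i, ε ≤ |g p i| := by
        by_contra hc
        push Not at hc
        have : ‖g p‖ < ε := by
          rw [pi_norm_lt_iff hε0]
          intro i
          rw [Real.norm_eq_abs]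
          exact hc i
        exact absurd (hεle p hpS) (not_le.2 this)
      refine ⟨sgn (fun x => g x i), ?_, ?_⟩
      · rw [hss, List.mem_map]
        exact ⟨i, List.mem_finRange i, rfl⟩
      · have hclose : ∀ x ∈ l, |g x i - g p i| < ε := by
          intro x hx
          have hxS := (hS x).1 (hsm.1 x hx)
          have h1 := hδ' x hxS p hpS (hsm.2 x hx p hp)
          have h2 := dist_le_pi_dist (g x) (g p) i
          rw [Real.dist_eq] at h2
          linarith
        rcases lt_or_ge 0 (g p i) with hpos | hneg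
        · have hi' : ε ≤ g p i := by rwa [abs_of_pos hpos] at hi
          have hall : ∀ x ∈ l, sgn (fun x => g x i) x = 1 := by
            intro x hx
            apply sgn_pos
            have := (abs_lt.1 (hclose x hx)).1
            linarith
          intro x hx y hy
          rw [hall x hx, hall y hy]
        · have hi' : ε ≤ - g p i := by rwa [abs_of_nonpos hneg] at hi
          have hall : ∀ x ∈ l, sgn (fun x => g x i) x = 0 := by
            intro x hx
            apply sgn_of_neg
            have := (abs_lt.1 (hclose x hx)).2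
            linarith
          intro x hx y hy
          rw [hall x hx, hall y hy]

/-- Borsuk–Ulam: a continuous odd map `V ∖ 0 → W` with `dim W < dim V` has a zero. -/
theorem odd_zero {V W : Type*} [NormedAddCommGroup V] [NormedSpace ℝ V] [FiniteDimensional ℝ V]
    [NormedAddCommGroup W] [NormedSpace ℝ W] [FiniteDimensional ℝ W]
    (hdim : Module.finrank ℝ W < Module.finrank ℝ V) (F : V → W)
    (hF : ContinuousOn F {0}ᶜ) (hodd : ∀ u, u ≠ 0 → F (-u) = - F u) :
    ∃ u, u ≠ 0 ∧ F u = 0 := by
  obtain ⟨j, hj⟩ : ∃ j, Module.finrank ℝ V = j + 1 := ⟨Module.finrank ℝ V - 1, by omega⟩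
  set k := Module.finrank ℝ W with hk
  have hkj : k ≤ j := by omega
  have eV : V ≃L[ℝ] (Fin (j + 1) → ℝ) := ContinuousLinearEquiv.ofFinrankEq (by
    rw [hj, Module.finrank_fin_fun])
  have eW : W ≃L[ℝ] (Fin k → ℝ) := ContinuousLinearEquiv.ofFinrankEq (by
    rw [← hk, Module.finrank_fin_fun])
  set pad : (Fin k → ℝ) → (Fin j → ℝ) := fun y i => if h : (i : ℕ) < k then y ⟨i, h⟩ else 0
    with hpad
  have hpadc : Continuous pad := by
    rw [hpad]
    refine continuous_pi fun i => ?_
    by_cases h : (i : ℕ) < k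
    · simp only [h, dif_pos]
      exact continuous_apply _
    · simp only [h, dif_neg, not_false_eq_true]
      exact continuous_const
  have hpadneg : ∀ y, pad (-y) = - pad y := by
    intro y
    ext i
    rw [hpad]
    by_cases h : (i : ℕ) < k <;> simp [h]
  have hpad0 : ∀ y, pad y = 0 → y = 0 := by
    intro y hy
    ext i
    have := congrFun hy ⟨i, by omega⟩
    rw [hpad] at this
    simpa using this
  obtain ⟨x, hx, hx0⟩ := borsukUlam_sphere j (fun x => pad (eW (F (eV.symm x)))) (by
      refine hpadc.comp_continuousOn (eW.continuous.comp_continuousOn ?_)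
      refine hF.comp eV.symm.continuous.continuousOn ?_
      intro x hx
      simp only [mem_compl_iff, mem_singleton_iff]
      intro h
      have hx0 : x = 0 := by simpa using h
      rw [hx0, mem_sphere_zero_iff_norm] at hx
      simp at hx) (by
      intro x hx
      have hx0 : eV.symm x ≠ 0 := by
        intro h
        have hx0 : x = 0 := by simpa using h
        rw [hx0, mem_sphere_zero_iff_norm] at hx
        simp at hx
      rw [map_neg, hodd _ hx0, map_neg, hpadneg])
  refine ⟨eV.symm x, ?_, ?_⟩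
  · intro h
    have hx0 : x = 0 := by simpa using h
    rw [hx0, mem_sphere_zero_iff_norm] at hx
    simp at hx
  · have h1 := hpad0 _ hx0
    simpa using h1

end Pool.Agent.H60EQ
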